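import Pool.Agent.H442.Fin6
set_option autoImplicit false

/-!
Independent classes in the integral part of `K_2` of cyclic trigonal curves over number fields.

Let `K` be a number field with an element `c`, `c ^ 2 = -27`; then `(c - 3) / 6` is a primitive
cube root of unity. For monic polynomials `B`, `D` of degrees `n > p ≥ 1` put `A = B + c D` and
consider the curve `A(x) y ^ 3 = B(x)`, of genus `2 n - 2` when `A B` is squarefree. For `r p < n`
the curves of this form with `B`, `D` in `ℤ[x]` which are geometrically irreducible and have `2 r`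
classes in the integral part of `K_2`, whose regulators are independent at every complex embedding
of `K`, are Zariski dense in the space of all pairs `(B, D)`.

The members are, up to translations of `x`, `D = ∏_{l ≤ p} (x - β_l)`, `β_l` different prime
numbers, and `B = x ∏_{k ≤ r} R_k ∏_i (x - λ_i)` with the monic polynomials `R_k ≡ x^{j_k} mod D`
of degree `p`, with large different exponents `j_k`; the classes are the symbols
`{(1 - ζ y)^3 / (1 - y^3), R_k(x) / x^{j_k}}`, where `ζ` is `1` or a primitive cube root of unity.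
-/

namespace Pool.Agent.Results.MP_0a9c3b_nt.CyclicTrigonal

open Polynomial

open Pool.Agent.TH826.MK (KQ Unramified Torus)

open Pool.Agent.H442

/-- Let `K` be a number field and `c` an element of `K` with `c ^ 2 = -27`, let `p, r ≥ 1` and
`r p < n`. For every nonzero complex polynomial `H` in the `n + p` coefficients of a pair of monic
polynomials of degrees `n` and `p` there are monic polynomials `B`, `D` in `ℤ[x]` of degrees `n`
and `p`, which are not a zero of `H`, such that for `A = B + c D` the polynomial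
`A(x) y ^ 3 - B(x)` is irreducible in `ℂ[x, y]` for every embedding of `K` in `ℂ`, and for every
fraction field `L` of the domain `K[x, y]/(A(x) y ^ 3 - B(x))` there are `2 r` classes in
`K_2(L) ⊗ ℚ`, unramified at all discrete valuations of `L`, such that for every embedding `σ` of
`K` in `ℂ` there are `2 r` loops in the spectrum of `L` over `σ` such that the determinant of the
regulators of the classes along the loops is different from zero. -/
theorem result (K : Type) [Field K] [NumberField K] (c : K) (hc : c ^ 2 = -27) (n p r : ℕ)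
    (hp : 1 ≤ p) (hr : 1 ≤ r) (hrp : r * p < n) (H : MvPolynomial (Fin n ⊕ Fin p) ℂ)
    (hH : H ≠ 0) :
    ∃ B D : ℤ[X], B.Monic ∧ B.natDegree = n ∧ D.Monic ∧ D.natDegree = p ∧
      MvPolynomial.eval (Sum.elim (fun i : Fin n => (B.coeff i : ℂ))
        (fun l : Fin p => (D.coeff l : ℂ))) H ≠ 0 ∧
      ∃ A : K[X], A = B.map (Int.castRingHom K) + C c * D.map (Int.castRingHom K) ∧
        (∀ σ : K →+* ℂ, Irreducible (C (A.map σ) * X ^ 3 - C (B.map (Int.castRingHom ℂ)) :
          ℂ[X][X])) ∧
        ∃ G : K[X][X], G = C A * X ^ 3 - C (B.map (Int.castRingHom K)) ∧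
          IsDomain (AdjoinRoot G) ∧
          ∀ (L : Type) [Field L] [Algebra (AdjoinRoot G) L] [IsFractionRing (AdjoinRoot G) L],
            ∃ w : Fin 2 × Fin r → KQ L 2, (∀ k, w k ∈ Unramified L 2) ∧
              ∀ σ : K →+* ℂ, ∃ Γ : Fin 2 × Fin r → Torus L 1,
                (∀ i θ a, (Γ i).e θ (algebraMap (AdjoinRoot G) L
                  (AdjoinRoot.of G (C a))) = σ a) ∧
                (Matrix.of fun i k => (Γ i).reg (w k)).det ≠ 0 := by
  obtain ⟨g, rfl⟩ : ∃ g, n = g + 1 := ⟨n - 1, by omega⟩
  have hcne : c ≠ 0 := by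
    rintro rfl
    norm_num at hc
  have hpg : p ≤ g := (Nat.le_mul_of_pos_left p hr).trans (by omega)
  obtain ⟨H', hH', hHH⟩ := exists_rat H hH
  obtain ⟨Δ, hΔ0, hΔ⟩ := exists_discAD (g := g) (p := p) hpg
  have h0 : H' * Δ ≠ 0 := mul_ne_zero hH' hΔ0
  have hV : ¬ Van3 r (g - r * p) (H' * Δ) := fun h => h0 (dens3 hp (by omega) h)
  unfold Van3 at hV
  push Not at hV
  obtain ⟨β, hβ, hpr, lam, hV⟩ := hV
  have hMm : (∏ i, (X - C (lam i)) : ℤ[X]).Monic := monic_prod_of_monic _ _ fun _ _ =>
    monic_X_sub_C _
  have hMd : (∏ i, (X - C (lam i)) : ℤ[X]).natDegree = g - r * p := by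
    rw [natDegree_prod_of_monic _ _ fun _ _ => monic_X_sub_C _]
    simp only [natDegree_X_sub_C, Finset.sum_const, Finset.card_univ, Fintype.card_fin,
      smul_eq_mul, mul_one]
  obtain ⟨J, hJ⟩ := spec6 hc hp hβ (fun l => (hpr l).two_le) hMm (r := r) (by omega)
  obtain ⟨j, hj, hjJ, ν, hne⟩ := hV J
  have h1 := hJ j hj hjJ _ _ _ rfl rfl rfl
  -- the polynomials before the translation
  have hBm : (X * (∏ k, Rz β (j k)) * ∏ i, (X - C (lam i)) : ℤ[X]).Monic :=
    (monic_X.mul (monic_prod_of_monic _ _ fun k _ => Rz_monic β (j k))).mul hMm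
  have hBd : (X * (∏ k, Rz β (j k)) * ∏ i, (X - C (lam i)) : ℤ[X]).natDegree = g + 1 := by
    rw [(monic_X.mul (monic_prod_of_monic _ _ fun k _ => Rz_monic β (j k))).natDegree_mul hMm,
      monic_X.natDegree_mul (monic_prod_of_monic _ _ fun k _ => Rz_monic β (j k)), hMd,
      natDegree_X, natDegree_prod_of_monic _ _ fun k _ => Rz_monic β (j k)]
    simp only [Rz_natDegree, Finset.sum_const, Finset.card_univ, Fintype.card_fin, smul_eq_mul]
    omega
  have hBX : (X * (∏ k, Rz β (j k)) * ∏ i, (X - C (lam i)) : ℤ[X]).eval 0 = 0 := by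
    rw [eval_mul, eval_mul, eval_X, zero_mul, zero_mul]
  have hDm := Dz_monic β
  have hDd := Dz_natDegree β
  have hAF : AF (fun k => Rz β (j k)) lam ν =
      (X * (∏ k, Rz β (j k)) * ∏ i, (X - C (lam i))).comp (X + C ν) := rfl
  rw [hAF] at hne
  generalize (X * (∏ k, Rz β (j k)) * ∏ i, (X - C (lam i)) : ℤ[X]) = B at *
  generalize Dz β = D at *
  have hX1 : (X + C ν : ℤ[X]).natDegree = 1 := natDegree_X_add_C ν
  have hB1 : (B.comp (X + C ν)).Monic := hBm.comp (monic_X_add_C ν) (by rw [hX1]; norm_num)
  have hD1 : (D.comp (X + C ν)).Monic := hDm.comp (monic_X_add_C ν) (by rw [hX1]; norm_num)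
  have hB2 : (B.comp (X + C ν)).natDegree = g + 1 := by rw [natDegree_comp, hX1, mul_one, hBd]
  have hD2 : (D.comp (X + C ν)).natDegree = p := by rw [natDegree_comp, hX1, mul_one, hDd]
  rw [map_mul] at hne
  have hne1 := left_ne_zero_of_mul hne
  have hne2 := right_ne_zero_of_mul hne
  -- coprimality
  have hsq : Squarefree ((B.comp (X + C ν)).map (Int.castRingHom ℚ) *
      ((B.comp (X + C ν)).map (Int.castRingHom ℚ) +
        4 * (D.comp (X + C ν)).map (Int.castRingHom ℚ))) := by
    refine hΔ _ _ (hB1.map _) (by rw [hB1.natDegree_map, hB2]) (hD1.map _)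
      (by rw [hD1.natDegree_map, hD2]) ?_
    simp only [coeff_map, eq_intCast]
    exact hne2
  have hcop : IsCoprime ((B.comp (X + C ν)).map (Int.castRingHom ℚ))
      ((D.comp (X + C ν)).map (Int.castRingHom ℚ)) := by
    rw [← isRelPrime_iff_isCoprime]
    intro d hd1 hd2
    exact hsq d (mul_dvd_mul hd1 (dvd_add hd1 (hd2.mul_left _)))
  have hsqB : Squarefree ((B.comp (X + C ν)).map (Int.castRingHom ℚ)) :=
    hsq.squarefree_of_dvd (dvd_mul_right _ _)
  have hroot : ∀ (F : Type) [Field F], ((B.comp (X + C ν)).map (Int.castRingHom F)).eval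
      (((-ν : ℤ) : F)) = 0 := by
    intro F _
    have h5 := eval_map (f := Int.castRingHom F) (p := B.comp (X + C ν)) (((-ν : ℤ) : F))
    rw [h5, eval₂_at_intCast, eval_comp, eval_add, eval_X, eval_C, Int.cast_id, neg_add_cancel,
      hBX, map_zero]
  have hirr : ∀ (F : Type) [Field F] [CharZero F] (c' : F), c' ≠ 0 →
      Irreducible (CG ((B.comp (X + C ν)).map (Int.castRingHom F) +
        C c' * (D.comp (X + C ν)).map (Int.castRingHom F))
        ((B.comp (X + C ν)).map (Int.castRingHom F))) := by
    intro F _ _ c' hc'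
    exact CG_irr' hc' (coprime_map6 hcop) (squarefree_map6 hsqB) (hroot F)
  have hirr0 : Irreducible (CG (B.map (algebraMap ℤ K) + C c * D.map (algebraMap ℤ K))
      (B.map (algebraMap ℤ K))) := by
    have h3 : ∀ P : ℤ[X], ((P.comp (X + C ν)).map (Int.castRingHom K)).comp (X - C (ν : K)) =
        P.map (algebraMap ℤ K) := by
      intro P
      rw [Polynomial.map_comp, comp_assoc]
      have h4 : ((X + C ν : ℤ[X]).map (Int.castRingHom K)).comp (X - C (ν : K)) = X := by
        simp
      rw [h4, comp_X]
      rfl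
    have h5 := (coprime_map6 (K := K) hcop).map (compRingHom (X - C (ν : K)))
    rw [coe_compRingHom_apply, coe_compRingHom_apply, h3, h3] at h5
    refine CG_irr' hcne h5 ?_ (a := 0) ?_
    · have h6 : ((B.comp (X + C ν)).map (Int.castRingHom K)).Separable :=
        PerfectField.separable_iff_squarefree.2 (squarefree_map6 hsqB)
      have h7 : (B.map (algebraMap ℤ K)).Separable := by
        rw [separable_def] at h6 ⊢
        have h8 := h6.map (compRingHom (X - C (ν : K)))
        rw [coe_compRingHom_apply, coe_compRingHom_apply, h3] at h8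
        have h9 : (derivative ((B.comp (X + C ν)).map (Int.castRingHom K))).comp
            (X - C (ν : K)) = derivative (B.map (algebraMap ℤ K)) := by
          rw [← h3 B, derivative_comp, derivative_sub, derivative_X, derivative_C, sub_zero,
            one_mul]
        rwa [h9] at h8
      exact h7.squarefree
    · have h6 := eval_map (f := algebraMap ℤ K) (p := B) (((0 : ℤ) : K))
      rw [Int.cast_zero] at h6
      rw [h6]
      have h7 := eval₂_at_intCast (f := algebraMap ℤ K) (p := B) 0
      rw [Int.cast_zero] at h7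
      rw [h7, Int.cast_id, hBX, map_zero]
  have h2 := h1 hirr0
  have hcomp : ∀ P : ℤ[X], (P.comp (X + C ν)).map (Int.castRingHom K) =
      (P.map (algebraMap ℤ K)).comp (X + C (ν : K)) := by
    intro P
    rw [Polynomial.map_comp]
    simp
  refine ⟨B.comp (X + C ν), D.comp (X + C ν), hB1, hB2, hD1, hD2, ?_, _, rfl, fun σ => ?_, _, rfl,
    isDomain_A (hirr K c hcne), ?_⟩
  · have h3 := hHH (Sum.elim (fun i : Fin (g + 1) => ((B.comp (X + C ν)).coeff i : ℚ))
      (fun l : Fin p => ((D.comp (X + C ν)).coeff l : ℚ))) (by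
        rw [MvPolynomial.aeval_def, MvPolynomial.eval₂_eq_eval_map] at hne1
        simpa using hne1)
    have h4 : (fun i => algebraMap ℚ ℂ (Sum.elim
        (fun i : Fin (g + 1) => ((B.comp (X + C ν)).coeff i : ℚ))
        (fun l : Fin p => ((D.comp (X + C ν)).coeff l : ℚ)) i)) =
        Sum.elim (fun i : Fin (g + 1) => ((B.comp (X + C ν)).coeff i : ℂ))
          (fun l : Fin p => ((D.comp (X + C ν)).coeff l : ℂ)) := by
      funext i
      rcases i with i | i <;> simp
    rwa [h4] at h3
  · have h3 := hirr ℂ (σ c) ((map_ne_zero σ).2 hcne)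
    have h4 : ((B.comp (X + C ν)).map (Int.castRingHom K) +
        C c * (D.comp (X + C ν)).map (Int.castRingHom K)).map σ =
        (B.comp (X + C ν)).map (Int.castRingHom ℂ) +
          C (σ c) * (D.comp (X + C ν)).map (Int.castRingHom ℂ) := by
      rw [Polynomial.map_add, Polynomial.map_mul, map_C, Polynomial.map_map, Polynomial.map_map]
      have h5 : σ.comp (Int.castRingHom K) = Int.castRingHom ℂ := Subsingleton.elim _ _
      rw [h5]
    rw [h4]
    exact h3
  · intro L _ _ _
    refine transfer6 h2 (ν : K) ?_ (hcomp B) rfl L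
    rw [hcomp, hcomp, add_comp, mul_comp, C_comp]

end Pool.Agent.Results.MP_0a9c3b_nt.CyclicTrigonal
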