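import Pool.Agent.H839.PZ.One

/-!
# The regulator on `K_2` of one curve over a number field and finitely many graph hypersurfaces

Let `S` be **one** smooth projective geometrically irreducible curve over a number field `k`, considered as
a smooth projective scheme over `ℚ`. The question Q1 for `S` is whether the regulator
`r : H_M^2(S, ℚ(2))_ℤ ⊗ ℝ → H_𝒟^2(S_ℝ, ℝ(2)) = Hom(H_1(S(ℂ), ℤ)^-, ℝ)` is an isomorphism (`Iso`).

For a smooth projective scheme `Y` over `ℚ` let `M^m(Y) = H_M^{2m-2}(Y, ℚ(m))_ℤ ⊗ ℝ` (integral part,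
Scholl) and `D^m(Y) = H_𝒟^{2m-2}(Y_ℝ, ℝ(m))`, with the regulator `r : M^m(Y) → D^m(Y)`. The cycles `c` of
codimension `m - 1` on `S × Y` operate by `c_* : M^2(S) → M^m(Y)` and `c_* : D^2(S) → D^m(Y)`. Let
`A^m(Y) ⊆ D^m(Y)` be the image of `r`, and `B^m(Y) = B_1^m(Y) ⊕ B_2^m(Y)`, where `B_1^m(Y) ⊆ D^m(Y)` is the
sum of `A^m(Y)` and of the images `c_* D^2(S)`, and `B_2^m(Y) ⊆ M^m(Y)` the sum of the images `c_* N` of the
kernel `N` of the regulator for `S`. They are additive functors of the Chow motive of `Y`, and
`A^m(Y) → B^m(Y)` is bijective if and only if `RegStable D m Y` holds. For a separated scheme `Z` of finite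
type over `ℚ` with the weight complex `W(Z)` (Gillet, Soulé) let `A^{m,i}(Z) = H^i(A^m(W(Z)))`,
`B^{m,i}(Z) = H^i(B^m(W(Z)))`; `BijAll C Z` says that the maps `A^{m,i}(Z) → B^{m,i}(Z)` are isomorphisms for
all `m` and `i`. (These data are the ones of the library, `Q68.OV.Reg`, where the same is done with cubic
hypersurfaces `T(x, y, z) = 1`.)

For a finite graph `G` let `Y_G` be the complement of its graph hypersurface, that is the open subscheme
of the affine space over `ℚ` of the edge weights where the Kirchhoff polynomial (the weighted number of the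
spanning trees, the determinant of the reduced Laplace matrix) is not zero.

**Theorem.** For each `S` there is a finite list `L` of finite simple graphs of maximal degree at most
three, which depends only on `S`, such that the regulator for `S` is an isomorphism if and only if the maps
`A^{m,i}(Y_G) → B^{m,i}(Y_G)` are isomorphisms for all `m` and `i` and the finitely many graphs `G` in `L`. If
it is, they are isomorphisms for all finite graphs of maximal degree at most three.
-/

set_option autoImplicit false

open CategoryTheory CategoryTheory.Limits AlgebraicGeometry Pool.Agent.Y116.UV Pool.Agent.Z125.UN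
  Pool.Agent.Q193.LT Pool.Agent.Q49.WU Pool.Agent.Q68.OV Pool.Agent.H839.PZ

universe w u

namespace Pool.Agent.Results.MP_0a9c3b_nt.FinitelyManyGraphs

/-- A smooth projective curve `S` over a number field, as a scheme over `ℚ`, and the regulators: `M m Y`
and `D m Y` are `H_M^{2m-2}(Y, ℚ(m))_ℤ ⊗ ℝ` and `H_𝒟^{2m-2}(Y_ℝ, ℝ(m))`, `reg` is the regulator, `Cyc m Y` the
type of the cycles of codimension `m - 1` on `S × Y`. -/
abbrev CurveData (S : Sch ℚ) := RegData.{w, 0, u} ℚ ℝ S 2

/-- **The regulator on `K_2` of one curve over a number field and finitely many graph hypersurfaces.** See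
the explanations above; `zero` is the case of dimension zero, where all groups which occur are zero. -/
theorem result {S : Sch ℚ} (hS : SmoothProj S) :
    ∃ L : List Gph, ∀ (D : CurveData.{w, u} S) (C : PairData.{w} ℚ (ℤ × ℤ) ℝ), IsReg D →
      IsWeightPair C → WeightGen C →
      (∀ Y, SmoothProj Y → ∀ m, (BijAt C Prod.fst m Y ↔ RegStable D m Y)) →
      (zero : ∀ Y : Sch ℚ, SmoothProj Y → topologicalKrullDim Y.left ≤ (0 : ℕ) → BijAll C Y) →
      (Iso D ↔ ∀ g ∈ L, BijAll C (g.co ℚ)) ∧
      (Iso D → ∀ g : Gph, BijAll C (g.co ℚ)) := by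
  obtain ⟨N, G, h⟩ := reg_kirch.{w, 0, u} hS 2
  refine ⟨G, fun D C hD hC hg bij zero => ?_⟩
  obtain ⟨_, h2, h3⟩ := h ℝ D C hD hC hg bij (point_of_zero hg zero)
  exact ⟨h2 frac_rat, fun hp => (h3 hp).2⟩

end Pool.Agent.Results.MP_0a9c3b_nt.FinitelyManyGraphs
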